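import Pool.Agent.helper65.GD.SpecF
import Pool.Agent.helper65.GD.NUM2

set_option autoImplicit false

/-! # Row XNI: the summed identity for Goodman's numbers -/

namespace Pool.Agent.GD

open Finset

/-- `1, 2, 2, ...` -/
def XNI_t (i : ℕ) : ℝ := if i = 0 then 1 else 2

lemma XNI_ab (b : ℕ → ℝ) (r : ℕ) :
    ∑ i ∈ range (r + 1), XNI_t i * (b i + 2 * b (i + 1) + b (i + 2)) =
      ∑ i ∈ range (r + 1), EE i * b i +
        ((if r = 0 then 2 else if r = 1 then 5 else 6) * b (r + 1) + (if r = 0 then 1 else 2) * b (r + 2)) := by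
  induction r with
  | zero =>
    simp [XNI_t, EE]
    ring
  | succ r ih =>
    rw [Finset.sum_range_succ, ih, Finset.sum_range_succ (fun i => EE i * b i) (r + 1)]
    rcases r with _ | _ | s
    · simp [XNI_t, EE]
      ring
    · simp [XNI_t, EE]
      ring
    · simp [XNI_t, EE]
      ring

lemma XNI_ioc (f : ℕ → ℝ) (j r : ℕ) :
    f j + 2 * ∑ q ∈ Ioc j (j + r), f q = ∑ i ∈ range (r + 1), XNI_t i * f (j + i) := by
  induction r with
  | zero => simp [XNI_t]
  | succ r ih =>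
    rw [Finset.sum_range_succ, ← ih, ← add_assoc, Finset.sum_Ioc_succ_top (by omega : j ≤ j + r)]
    simp only [XNI_t, if_neg (Nat.succ_ne_zero r)]
    ring_nf

/-- the boundary terms -/
lemma XNI_eb (p n j : ℕ) (hjp : j ≤ p + 1) (hn : p + 1 < n) :
    eb p n j + 2 * ∑ q ∈ Ioc j (p + 1), eb p n q = TT (p + 1 - j) (n - p - 1) := by
  have hA : ((n - p - 1 : ℕ) : ℝ) = (n : ℝ) - p - 1 := by
    obtain ⟨a, rfl⟩ : ∃ a, n = p + 1 + a := ⟨n - (p + 1), by omega⟩
    rw [show p + 1 + a - p - 1 = a by omega]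
    push_cast
    ring
  have hs : ∑ q ∈ Ioc j (p + 1), eb p n q =
      (if j < p + 1 then (n : ℝ) - p else 0) + (if j < p then (n : ℝ) - p - 1 else 0) := by
    unfold eb
    rw [Finset.sum_add_distrib, Finset.sum_ite_eq', Finset.sum_ite_eq']
    congr 1
    · simp only [mem_Ioc, le_refl, and_true]
    · simp only [mem_Ioc]
      by_cases h : j < p
      · rw [if_pos ⟨h, by omega⟩, if_pos h]
      · rw [if_neg (fun h' => h h'.1), if_neg h]
  rw [hs]
  unfold eb TT
  rw [hA]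
  rcases (by omega : j = p + 1 ∨ j = p ∨ j + 1 ≤ p) with h | h | h
  · rw [if_pos h, if_neg (by omega : ¬ j = p), if_neg (by omega : ¬ j < p + 1), if_neg (by omega : ¬ j < p),
      if_pos (by omega : p + 1 - j = 0)]
    ring
  · rw [if_neg (by omega : ¬ j = p + 1), if_pos h, if_pos (by omega : j < p + 1), if_neg (by omega : ¬ j < p),
      if_neg (by omega : ¬ p + 1 - j = 0), if_pos (by omega : p + 1 - j = 1)]
    ring
  · rw [if_neg (by omega : ¬ j = p + 1), if_neg (by omega : ¬ j = p), if_pos (by omega : j < p + 1),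
      if_pos (by omega : j < p), if_neg (by omega : ¬ p + 1 - j = 0), if_neg (by omega : ¬ p + 1 - j = 1)]
    ring

/-- the sums of the three term numbers -/
lemma XNI_c3 (p m i r : ℕ) (hp : p = i + r) :
    c3 p m (i + 1) + 2 * ∑ q ∈ Ioc (i + 1) (p + 1), c3 p m q =
      ∑ k ∈ Icc 1 p, AA p m k * (if k + 1 < i + 1 then 0 else EE (k + 1 - (i + 1))) := by
  have h1 : p + 1 = i + 1 + r := by omega
  rw [h1, XNI_ioc]
  have h2 : ∀ s : ℕ, c3 p m (i + 1 + s) = ae p m (i + s) + 2 * ae p m (i + (s + 1)) + ae p m (i + (s + 2)) := by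
    intro s
    unfold c3
    rw [show i + 1 + s - 1 = i + s by omega, show i + 1 + s = i + (s + 1) by ring,
      show i + (s + 1) + 1 = i + (s + 2) by ring]
  have h3 : ∑ s ∈ range (r + 1), XNI_t s * c3 p m (i + 1 + s) =
      ∑ s ∈ range (r + 1), XNI_t s * (ae p m (i + s) + 2 * ae p m (i + (s + 1)) + ae p m (i + (s + 2))) :=
    Finset.sum_congr rfl fun s _ => by rw [h2]
  rw [h3, XNI_ab (fun s => ae p m (i + s)) r]
  have h4 : ae p m (i + (r + 1)) = 0 := by
    unfold ae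
    rw [if_neg (by omega)]
  have h5 : ae p m (i + (r + 2)) = 0 := by
    unfold ae
    rw [if_neg (by omega)]
  rw [h4, h5, mul_zero, mul_zero, add_zero, add_zero]
  have h6 : ∑ k ∈ Icc 1 p, AA p m k * (if k + 1 < i + 1 then 0 else EE (k + 1 - (i + 1))) =
      ∑ k ∈ range (p + 1), ae p m k * (if k + 1 < i + 1 then 0 else EE (k + 1 - (i + 1))) := by
    rw [Finset.range_eq_Ico, Finset.sum_eq_sum_Ico_succ_bot (by omega : 0 < p + 1)]
    have h0 : ae p m 0 = 0 := by
      unfold ae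
      rw [if_neg (by omega)]
    rw [h0, zero_mul, zero_add]
    have : Icc 1 p = Ico (0 + 1) (p + 1) := by
      ext x
      simp only [mem_Icc, mem_Ico]
      omega
    rw [this]
    refine Finset.sum_congr rfl fun k hk => ?_
    have hk' := mem_Ico.1 hk
    have hae : ae p m k = AA p m k := by
      unfold ae
      rw [if_pos ⟨by omega, by omega⟩]
    rw [hae]
  have h8 : ∑ k ∈ range (i + (r + 1)), ae p m k * (if k + 1 < i + 1 then 0 else EE (k + 1 - (i + 1))) =
      ∑ k ∈ range i, ae p m k * (if k + 1 < i + 1 then 0 else EE (k + 1 - (i + 1))) +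
        ∑ s ∈ range (r + 1), ae p m (i + s) * (if i + s + 1 < i + 1 then 0 else EE (i + s + 1 - (i + 1))) :=
    Finset.sum_range_add _ _ _
  rw [h6, h1, show i + 1 + r = i + (r + 1) by ring, h8]
  have h7 : ∑ k ∈ range i, ae p m k * (if k + 1 < i + 1 then 0 else EE (k + 1 - (i + 1))) = 0 := by
    refine Finset.sum_eq_zero fun k hk => ?_
    have := mem_range.1 hk
    rw [if_pos (by omega), mul_zero]
  rw [h7, zero_add]
  refine Finset.sum_congr rfl fun s _ => ?_
  rw [if_neg (by omega), show i + s + 1 - (i + 1) = s by omega, mul_comm]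

theorem XNI : XNI_stmt := by
  intro p n j hj hjp hn
  obtain ⟨i, rfl⟩ : ∃ i, j = i + 1 := ⟨j - 1, by omega⟩
  obtain ⟨r, hr⟩ : ∃ r, p = i + r := ⟨p - i, by omega⟩
  unfold BB
  have hq : ∀ q ∈ Ioc (i + 1) (p + 1), AA (p + 1) n q = eb p n q + ∑ m ∈ Ioo p n, ((n : ℝ) - m) * c3 p m q := by
    intro q hq
    have := mem_Ioc.1 hq
    exact (NUM2 p q (by omega) (by omega) n hn).symm
  rw [Finset.sum_congr rfl hq, ← NUM2 p (i + 1) (by omega) hjp n hn, Finset.sum_add_distrib,
    ← XNI_eb p n (i + 1) hjp hn, Finset.sum_comm]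
  have hm : ∑ m ∈ Ioo p n, ((n : ℝ) - m) *
      ∑ k ∈ Icc 1 p, AA p m k * (if k + 1 < i + 1 then 0 else EE (k + 1 - (i + 1))) =
      ∑ m ∈ Ioo p n, ((n : ℝ) - m) * c3 p m (i + 1) +
        2 * ∑ m ∈ Ioo p n, ∑ q ∈ Ioc (i + 1) (p + 1), ((n : ℝ) - m) * c3 p m q := by
    rw [Finset.mul_sum, ← Finset.sum_add_distrib]
    refine Finset.sum_congr rfl fun m _ => ?_
    rw [← XNI_c3 p m i r hr, ← Finset.mul_sum]
    ring
  rw [hm]
  ring

end Pool.Agent.GD
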